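import Pool.Agent.Q21.FB.Count

set_option autoImplicit false

namespace Pool.Agent.Results.MP_9320d9_al.PrimePowerOrders

universe u

/-- Condition `(∗)`: for every divisor `d > 1` of `|G|` and every subgroup `H` with
`gcd (|H|, d) = 1`, the order `|H|` divides the number of elements of `G` of order exactly `d`. -/
def Star (G : Type u) [Group G] : Prop :=
  ∀ d : ℕ, 1 < d → d ∣ Nat.card G → ∀ H : Subgroup G, Nat.Coprime (Nat.card H) d →
    Nat.card H ∣ Nat.card {g : G // orderOf g = d}

open scoped Classical in
theorem key {G : Type u} [Group G] [Fintype G] (h : Star G) (p : ℕ) [hp : Fact p.Prime] (k : ℕ)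
    (hk : p ^ k ∣ Nat.card G) :
    p ^ k ∣ (Finset.univ.filter (fun g : G => ∃ q j : ℕ, q.Prime ∧ orderOf g = q ^ j)).card := by
  rw [← Finset.card_filter_add_card_filter_not (s := Finset.univ.filter
    (fun g : G => ∃ q j : ℕ, q.Prime ∧ orderOf g = q ^ j)) (p := fun g => ∃ j, g ^ (p ^ j) = 1)]
  apply dvd_add
  · have h1 := Pool.Q21.FB.frob p _ G rfl k hk
    rw [Nat.card_eq_fintype_card, Fintype.card_subtype] at h1
    convert! h1 using 2
    ext g
    simp only [Finset.mem_filter, Finset.mem_univ, true_and, and_iff_right_iff_imp]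
    rintro ⟨j, hj⟩
    obtain ⟨i, -, hi⟩ := (Nat.dvd_prime_pow hp.out).1 (orderOf_dvd_of_pow_eq_one hj)
    exact ⟨p, i, hp.out, hi⟩
  · rw [Finset.card_eq_sum_card_fiberwise (f := fun g : G => orderOf g)
      (t := (Nat.card G).divisors)]
    · refine Finset.dvd_sum (fun d hd => ?_)
      by_cases hne : ((Finset.univ.filter (fun g : G => ∃ q j : ℕ, q.Prime ∧ orderOf g = q ^ j)).filter
          (fun g => ¬ ∃ j, g ^ (p ^ j) = 1) |>.filter (fun g => orderOf g = d)).Nonempty
      · obtain ⟨g, hg⟩ := hne
        simp only [Finset.mem_filter, Finset.mem_univ, true_and] at hg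
        obtain ⟨⟨⟨q, j, hq, hqj⟩, hnp⟩, hgd⟩ := hg
        have hqp : q ≠ p := by
          rintro rfl
          exact hnp ⟨j, by rw [← hqj, pow_orderOf_eq_one]⟩
        have hd1 : 1 < d := by
          rw [← hgd]
          have h1 : 0 < orderOf g := orderOf_pos g
          have h2 : orderOf g ≠ 1 := by
            intro h3
            rw [orderOf_eq_one_iff] at h3
            exact hnp ⟨0, by rw [h3, one_pow]⟩
          omega
        have hcop : ∀ i, Nat.Coprime (p ^ i) d := by
          intro i
          rw [← hgd, hqj]
          exact Nat.Coprime.pow _ _ ((Nat.coprime_primes hp.out hq).2 hqp.symm)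
        have hset : ((Finset.univ.filter (fun g : G => ∃ q j : ℕ, q.Prime ∧ orderOf g = q ^ j)).filter
          (fun g => ¬ ∃ j, g ^ (p ^ j) = 1)).filter (fun g => orderOf g = d) =
            Finset.univ.filter (fun g : G => orderOf g = d) := by
          ext x
          simp only [Finset.mem_filter, Finset.mem_univ, true_and, and_iff_right_iff_imp]
          intro hx
          refine ⟨⟨q, j, hq, by rw [hx, ← hgd, hqj]⟩, ?_⟩
          rintro ⟨i, hi⟩
          have h3 : d ∣ p ^ i := by rw [← hx]; exact orderOf_dvd_of_pow_eq_one hi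
          have h4 : d ∣ 1 := by
            have := Nat.dvd_gcd h3 dvd_rfl
            rwa [(hcop i).gcd_eq_one] at this
          exact absurd (Nat.dvd_one.1 h4) hd1.ne'
        rw [hset]
        obtain ⟨P⟩ : Nonempty (Sylow p G) := inferInstance
        have hPc : Nat.card P = p ^ (Nat.card G).factorization p := P.card_eq_multiplicity
        have h5 := h d hd1 (by rw [← hgd]; exact orderOf_dvd_natCard g) P.1 (by
          show Nat.Coprime (Nat.card P) d
          rw [hPc]; exact hcop _)
        rw [Nat.card_eq_fintype_card (α := {g : G // orderOf g = d}), Fintype.card_subtype] at h5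
        refine dvd_trans ?_ h5
        show p ^ k ∣ Nat.card P
        rw [hPc]
        exact pow_dvd_pow p ((hp.out.pow_dvd_iff_le_factorization Nat.card_pos.ne').1 hk)
      · rw [Finset.not_nonempty_iff_eq_empty] at hne
        rw [hne, Finset.card_empty]
        exact dvd_zero _
    · intro g _
      simp only [Finset.mem_coe, Nat.mem_divisors]
      exact ⟨orderOf_dvd_natCard g, Nat.card_pos.ne'⟩

/-- If a finite group satisfies `(∗)`, then every element has prime-power order. -/
theorem result {G : Type u} [Group G] [Finite G] (h : Star G) (g : G) :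
    ∃ p k : ℕ, p.Prime ∧ orderOf g = p ^ k := by
  classical
  have : Fintype G := Fintype.ofFinite G
  set S := Finset.univ.filter (fun g : G => ∃ q j : ℕ, q.Prime ∧ orderOf g = q ^ j) with hS
  have h1 : Nat.card G ∣ S.card := by
    rw [Nat.dvd_iff_prime_pow_dvd_dvd]
    intro p k hp hk
    have : Fact p.Prime := ⟨hp⟩
    have := key h p k hk
    convert! this
  have hpos : 0 < S.card := Finset.card_pos.2 ⟨1, by
    rw [hS, Finset.mem_filter]
    exact ⟨Finset.mem_univ _, 2, 0, Nat.prime_two, by simp⟩⟩
  have h2 : Nat.card G ≤ S.card := Nat.le_of_dvd hpos h1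
  have h3 : S = Finset.univ := by
    rw [← Finset.card_eq_iff_eq_univ]
    apply le_antisymm (Finset.card_le_univ _)
    rwa [← Nat.card_eq_fintype_card]
  have h4 : g ∈ S := by rw [h3]; exact Finset.mem_univ _
  rw [hS, Finset.mem_filter] at h4
  exact h4.2

end Pool.Agent.Results.MP_9320d9_al.PrimePowerOrders
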